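import Pool.Agent.H.MP_3d7070_lc.B

namespace Pool.Agent.Results.MP_3d7070_lc.Cubic

open Pool.Agent.H.MP_3d7070_lc Filter

theorem result : ∃ k ≥ 2, ∃ (Q A : ℕ → Type) (_ : ∀ i, Fintype (Q i)) (_ : ∀ i, DecidableEq (Q i))
    (_ : ∀ i, Fintype (A i)) (_ : ∀ i, Nonempty (Q i)) (_ : ∀ i, Nonempty (A i)) (δ : ∀ i, Q i → A i → Q i),
    (∀ i, ∃ N, Within (δ i) k N Finset.univ) ∧ Tendsto (fun i => Fintype.card (Q i)) atTop atTop ∧
    Tendsto (fun i => (gameLength (δ i) k : ℝ) / (Fintype.card (Q i) : ℝ) ^ 2) atTop atTop ∧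
    ∀ i, Fintype.card (Q i) ^ 3 ≤ 864 * gameLength (δ i) k := by
  refine ⟨2, le_rfl, fun c => Bool × B c, fun c => L c ⊕ Bool, inferInstance, inferInstance, inferInstance,
    fun c => ⟨(true, .g)⟩, fun c => ⟨.inr true⟩, δ, wins, ?_, ?_, fun c => ?_⟩
  · exact tendsto_atTop_mono (fun c => by rw [card_Q]; simp only [id]; omega) tendsto_id
  · refine tendsto_atTop_mono (fun c => ?_) (tendsto_natCast_atTop_atTop.atTop_div_const (by norm_num : (0 : ℝ) < 36))
    have h : ((c + 1) * ((c + 1) * (c + 2)) : ℝ) ≤ gameLength (δ c) 2 := by exact_mod_cast length_ge c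
    rw [card_Q, div_le_div_iff₀ (by norm_num) (by positivity)]
    push_cast
    have : (0 : ℝ) ≤ c := Nat.cast_nonneg c
    nlinarith
  · have := length_ge c
    rw [card_Q]
    nlinarith [Nat.zero_le c, Nat.zero_le (c ^ 2), Nat.zero_le (c ^ 3)]

end Pool.Agent.Results.MP_3d7070_lc.Cubic
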